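import Mathlib

set_option autoImplicit false

open Set TopologicalSpace Metric

namespace Pool.Agent.Results.MP_4aa5c9_gt.PlasticSubspace

universe u

/-- A metric space is plastic if every non-expansive bijection of it onto itself is an
isometry. -/
def Plastic (X : Type u) [MetricSpace X] : Prop :=
  ∀ f : X → X, Function.Bijective f → (∀ x y, dist (f x) (f y) ≤ dist x y) →
    ∀ x y, dist (f x) (f y) = dist x y

/-- A topological space is `k`-crowded if each of its nonempty open subsets contains an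
uncountable compact subset. -/
def KCrowded (X : Type u) [TopologicalSpace X] : Prop :=
  ∀ U : Set X, IsOpen U → U.Nonempty → ∃ K : Set X, K ⊆ U ∧ IsCompact K ∧ ¬ K.Countable

/-! ### Compact sets without isolated points are uncountable -/

lemma not_countable_of_preperfect {X : Type u} [MetricSpace X] {C : Set X} (hc : IsCompact C)
    (hne : C.Nonempty) (hp : Preperfect C) : ¬ C.Countable := by
  intro hcount
  have : CompactSpace C := isCompact_iff_compactSpace.1 hc
  have : Nonempty C := hne.to_subtype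
  have : Countable C := hcount.to_subtype
  obtain ⟨x, hx⟩ := nonempty_interior_of_iUnion_of_closed (f := fun x : C => ({x} : Set C))
    (fun x => isClosed_singleton) (by ext; simp)
  obtain ⟨y, hy⟩ := hx
  have hyx : y = x := by simpa using interior_subset hy
  subst hyx
  have hopen : IsOpen (interior ({y} : Set C)) := isOpen_interior
  obtain ⟨U, hU, hUe⟩ := isOpen_induced_iff.1 hopen
  have hyU : (y : X) ∈ U := by
    have : y ∈ Subtype.val ⁻¹' U := by rw [hUe]; exact hy
    exact this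
  obtain ⟨z, ⟨hzU, hzC⟩, hzy⟩ := (preperfect_iff_nhds.1 hp) y y.2 U (hU.mem_nhds hyU)
  apply hzy
  have : (⟨z, hzC⟩ : C) ∈ interior ({y} : Set C) := by
    rw [← hUe]; exact hzU
  have h2 : (⟨z, hzC⟩ : C) = y := by simpa using interior_subset this
  exact congrArg Subtype.val h2

lemma not_countable_inter {X : Type u} [MetricSpace X] {P : Set X} (hc : IsCompact P)
    (hp : Perfect P) {U : Set X} (hU : IsOpen U) (hne : (U ∩ P).Nonempty) :
    ¬ (U ∩ P).Countable := by
  obtain ⟨x, hxU, hxP⟩ := hne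
  obtain ⟨ε, hε, hball⟩ := Metric.isOpen_iff.1 hU x hxU
  have h1 := hp.closure_nhds_inter (U := ball x (ε / 2)) x hxP (mem_ball_self (by positivity))
    isOpen_ball
  have h2 : closure (ball x (ε / 2) ∩ P) ⊆ U ∩ P := by
    refine subset_inter ?_ (closure_minimal inter_subset_right hp.closed)
    refine (closure_mono inter_subset_left).trans ?_
    refine closure_ball_subset_closedBall.trans ?_
    exact (closedBall_subset_ball (by linarith)).trans hball
  have h3 : IsCompact (closure (ball x (ε / 2) ∩ P)) :=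
    hc.of_isClosed_subset isClosed_closure (h2.trans inter_subset_right)
  intro hcount
  exact not_countable_of_preperfect h3 h1.2 h1.1.acc (hcount.mono h2)

/-! ### Non-expansive surjections of compact sets -/

lemma isometry_of_nonexpansive {X : Type u} [MetricSpace X] {K : Set X} (hK : IsCompact K)
    (f : X → X) (hf : ∀ x y, dist (f x) (f y) ≤ dist x y) (hinj : Function.Injective f)
    (himg : f '' K = K) {a b : X} (ha : a ∈ K) (hb : b ∈ K) : dist (f a) (f b) = dist a b := by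
  -- a right inverse on `K`
  have hex : ∀ x : K, ∃ y : K, f y = x := by
    rintro ⟨x, hx⟩
    rw [← himg] at hx
    obtain ⟨y, hy, rfl⟩ := hx
    exact ⟨⟨y, hy⟩, rfl⟩
  choose g hg using hex
  have hexp : ∀ x y : K, dist x y ≤ dist (g x) (g y) := by
    intro x y
    have := hf (g x) (g y)
    rw [hg, hg] at this
    exact this
  have hexpn : ∀ (n : ℕ) (x y : K), dist x y ≤ dist (g^[n] x) (g^[n] y) := by
    intro n
    induction n with
    | zero => intro x y; exact le_rfl
    | succ n ih =>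
      intro x y
      rw [Function.iterate_succ_apply', Function.iterate_succ_apply']
      exact (ih x y).trans (hexp _ _)
  have : CompactSpace K := isCompact_iff_compactSpace.1 hK
  have hkey : ∀ x y : K, dist (g x) (g y) ≤ dist x y := by
    intro x y
    refine le_of_forall_pos_le_add fun ε hε => ?_
    -- an almost-return time
    obtain ⟨z, φ, hφ, hlim⟩ := CompactSpace.tendsto_subseq (fun n : ℕ => (g^[n] x, g^[n] y))
    have hcau := hlim.cauchySeq
    obtain ⟨N, hN⟩ := Metric.cauchySeq_iff.1 hcau (ε / 2) (by positivity)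
    have h1 := hN (N + 1) (by omega) N le_rfl
    have hlt : φ N < φ (N + 1) := hφ (Nat.lt_succ_self N)
    obtain ⟨k, hk⟩ := Nat.exists_eq_add_of_lt hlt
    have hk' : φ (N + 1) = φ N + (k + 1) := by omega
    simp only [Function.comp, hk', Prod.dist_eq, max_lt_iff] at h1
    obtain ⟨hx1, hy1⟩ := h1
    rw [Function.iterate_add_apply] at hx1 hy1
    have hx2 : dist (g^[k + 1] x) x < ε / 2 := (hexpn _ _ _).trans_lt hx1
    have hy2 : dist (g^[k + 1] y) y < ε / 2 := (hexpn _ _ _).trans_lt hy1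
    have h3 : dist (g x) (g y) ≤ dist (g^[k + 1] x) (g^[k + 1] y) := by
      rw [Function.iterate_succ_apply, Function.iterate_succ_apply]
      exact hexpn _ _ _
    have h4 := dist_triangle4 (g^[k + 1] x) x y (g^[k + 1] y)
    have h5 : dist y (g^[k + 1] y) = dist (g^[k + 1] y) y := dist_comm _ _
    linarith
  -- conclude
  have hfa : f a ∈ K := by rw [← himg]; exact ⟨a, ha, rfl⟩
  have hfb : f b ∈ K := by rw [← himg]; exact ⟨b, hb, rfl⟩
  have ga : ((g ⟨f a, hfa⟩ : K) : X) = a := hinj (hg ⟨f a, hfa⟩)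
  have gb : ((g ⟨f b, hfb⟩ : K) : X) = b := hinj (hg ⟨f b, hfb⟩)
  have := hkey ⟨f a, hfa⟩ ⟨f b, hfb⟩
  rw [Subtype.dist_eq, Subtype.dist_eq, ga, gb] at this
  exact le_antisymm (hf a b) this

/-! ### The abstract rigidity lemma -/

lemma plastic_of_rigid {X : Type u} [MetricSpace X] (C : ℕ → Set X)
    (hC : ∀ n, IsCompact (C n)) (hdisj : ∀ n m, n ≠ m → Disjoint (C n) (C m))
    (hcov : ∀ x, ∃ n, x ∈ C n)
    (hrig : ∀ n m, n ≠ m → ∀ V : Set X, IsOpen V → (V ∩ C n).Nonempty → ¬ ∃ g : X → X,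
      (∀ x ∈ V ∩ C n, g x ∈ C m) ∧ ∀ x ∈ V ∩ C n, ∀ y ∈ V ∩ C n, dist x y ≤ dist (g x) (g y)) :
    Plastic X := by
  intro f hbij hf
  have hcont : Continuous f := (LipschitzWith.of_dist_le' (K := 1) (by simpa using hf)).continuous
  have hfC : ∀ n, IsCompact (f '' C n) := fun n => (hC n).image hcont
  -- Step 1
  have h1 : ∀ n, C n ⊆ f '' C n := by
    intro n y hy
    by_contra hyn
    have : CompactSpace (C n) := isCompact_iff_compactSpace.1 (hC n)
    let G : ℕ → Set (C n) := fun m => Subtype.val ⁻¹' (f '' C m)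
    have hGc : ∀ m, IsClosed (G m) := fun m => (hfC m).isClosed.preimage continuous_subtype_val
    have hGU : ⋃ m, G m = univ := by
      ext z
      simp only [mem_iUnion, mem_univ, iff_true]
      obtain ⟨x, hx⟩ := hbij.2 z
      obtain ⟨m, hm⟩ := hcov x
      exact ⟨m, x, hm, hx⟩
    have hdense := dense_iUnion_interior_of_closed hGc hGU
    let V0 : Set (C n) := Subtype.val ⁻¹' (f '' C n)ᶜ
    have hV0 : IsOpen V0 := (hfC n).isClosed.isOpen_compl.preimage continuous_subtype_val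
    obtain ⟨z, hzV, hzI⟩ := hdense.inter_open_nonempty V0 hV0 ⟨⟨y, hy⟩, hyn⟩
    obtain ⟨m, hm⟩ := mem_iUnion.1 hzI
    by_cases hnm : m = n
    · subst hnm
      have hz' : z ∈ G m := interior_subset hm
      exact hzV hz'
    · obtain ⟨V, hV, hVe⟩ := isOpen_induced_iff.1 (isOpen_interior : IsOpen (interior (G m)))
      have hsub : ∀ x ∈ V ∩ C n, ∃ w ∈ C m, f w = x := by
        rintro x ⟨hxV, hxC⟩
        have h' : (⟨x, hxC⟩ : C n) ∈ interior (G m) := by rw [← hVe]; exact hxV
        have h'' : (⟨x, hxC⟩ : C n) ∈ G m := interior_subset h'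
        exact h''
      refine hrig n m (Ne.symm hnm) V hV ⟨z, ?_, z.2⟩ ?_
      · have : z ∈ Subtype.val ⁻¹' V := by rw [hVe]; exact hm
        exact this
      · classical
        choose! g hg1 hg2 using hsub
        refine ⟨g, hg1, fun x hx y hy => ?_⟩
        have := hf (g x) (g y)
        rwa [hg2 x hx, hg2 y hy] at this
  -- Step 2
  have h2 : ∀ n, f '' C n = C n := by
    intro n
    refine Subset.antisymm ?_ (h1 n)
    rintro _ ⟨y, hy, rfl⟩
    obtain ⟨m, hm⟩ := hcov (f y)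
    by_cases hnm : m = n
    · exact hnm ▸ hm
    · exfalso
      obtain ⟨z, hz, hzy⟩ := h1 m hm
      have : z = y := hbij.1 hzy
      subst this
      exact disjoint_left.1 (hdisj m n hnm) hz hy
  -- Step 3
  intro a b
  obtain ⟨n, hn⟩ := hcov a
  obtain ⟨m, hm⟩ := hcov b
  refine isometry_of_nonexpansive ((hC n).union (hC m)) f hf hbij.1 ?_ (Or.inl hn) (Or.inr hm)
  rw [image_union, h2, h2]


/-! ### The construction -/

section Construction

variable {Y : Type u} [MetricSpace Y]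

/-- A finite approximation to the family of compact sets. -/
structure State (P : ℕ → Set Y) where
  /-- the centres -/
  F : ℕ → Finset Y
  /-- the radius -/
  r : ℝ
  sub : ∀ n, ∀ x ∈ F n, x ∈ P n
  ne : ∀ n, (F n).Nonempty
  disj : ∀ n m, n ≠ m → Disjoint (F n) (F m)
  pos : 0 < r

/-- One step of the construction, for the task `(n, m, V)`. -/
def StepRel {P : ℕ → Set Y} (n m : ℕ) (V : Set Y) (s s' : State P) : Prop :=
  (∀ j, s.F j ⊆ s'.F j) ∧
  (∀ j, ∀ x' ∈ s'.F j, ∃ x ∈ s.F j, dist x' x + s'.r ≤ s.r) ∧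
  (n ≠ m → (∀ x ∈ s'.F n, ∀ y ∈ s'.F m, 3 * s'.r ≤ dist x y) ∧
    ((∃ x ∈ s.F n, x ∈ V) → ∃ A : Finset Y, (∀ x ∈ A, x ∈ s'.F n ∧ x ∈ V) ∧
      (s'.F m).card < A.card ∧ ∀ x ∈ A, ∀ y ∈ A, x ≠ y → 3 * s'.r ≤ dist x y))

lemma exists_sep (G : Finset Y) : ∃ δ : ℝ, 0 < δ ∧ ∀ x ∈ G, ∀ y ∈ G, x ≠ y → δ ≤ dist x y := by
  classical
  by_cases h : (G.offDiag).Nonempty
  · obtain ⟨p, hp, hmin⟩ := G.offDiag.exists_min_image (fun p => dist p.1 p.2) h
    rw [Finset.mem_offDiag] at hp
    refine ⟨dist p.1 p.2, dist_pos.2 hp.2.2, fun x hx y hy hxy => ?_⟩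
    exact hmin (x, y) (Finset.mem_offDiag.2 ⟨hx, hy, hxy⟩)
  · refine ⟨1, one_pos, fun x hx y hy hxy => ?_⟩
    exact absurd ⟨(x, y), Finset.mem_offDiag.2 ⟨hx, hy, hxy⟩⟩ h

lemma exists_step {P : ℕ → Set Y}
    (hP : ∀ n, ∀ U : Set Y, IsOpen U → (U ∩ P n).Nonempty → ¬ (U ∩ P n).Countable)
    (n m : ℕ) {V : Set Y} (hV : IsOpen V) (s : State P) : ∃ s' : State P, StepRel n m V s s' := by
  classical
  by_cases hnm : n = m
  · refine ⟨⟨s.F, s.r, s.sub, s.ne, s.disj, s.pos⟩, fun j => Finset.Subset.refl _, ?_, ?_⟩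
    · intro j x hx
      exact ⟨x, hx, by simp⟩
    · intro h; exact absurd hnm h
  -- the new points
  obtain ⟨A, hAP, hAF, hAd, hAV⟩ : ∃ A : Finset Y, (∀ x ∈ A, x ∈ P n) ∧
      (∀ x ∈ A, ∀ j, x ∉ s.F j) ∧ (∀ x' ∈ A, ∃ x ∈ s.F n, dist x' x ≤ s.r / 2) ∧
      ((∃ x ∈ s.F n, x ∈ V) → (∀ x ∈ A, x ∈ V) ∧ (s.F m).card < A.card) := by
    by_cases hx : ∃ x ∈ s.F n, x ∈ V
    · obtain ⟨x, hxF, hxV⟩ := hx
      have hpos := s.pos
      have hU : IsOpen (V ∩ ball x (s.r / 2)) := hV.inter isOpen_ball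
      have hunc := hP n _ hU ⟨x, ⟨hxV, mem_ball_self (by linarith)⟩, s.sub n x hxF⟩
      have hB : (⋃ j, (s.F j : Set Y)).Countable :=
        countable_iUnion fun j => (s.F j).countable_toSet
      have hinf : (((V ∩ ball x (s.r / 2)) ∩ P n) \ ⋃ j, (s.F j : Set Y)).Infinite := by
        intro hfin
        apply hunc
        refine (hfin.countable.union hB).mono ?_
        intro y hy
        by_cases hyB : y ∈ ⋃ j, (s.F j : Set Y)
        · exact Or.inr hyB
        · exact Or.inl ⟨hy, hyB⟩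
      obtain ⟨A, hA, hAc⟩ := hinf.exists_subset_card_eq ((s.F m).card + 1)
      refine ⟨A, ?_, ?_, ?_, ?_⟩
      · intro y hy; exact (hA hy).1.2
      · intro y hy j hj
        exact (hA hy).2 (mem_iUnion.2 ⟨j, hj⟩)
      · intro y hy
        exact ⟨x, hxF, (mem_ball.1 (hA hy).1.1.2).le⟩
      · intro _
        exact ⟨fun y hy => (hA hy).1.1.1, by omega⟩
    · exact ⟨∅, by simp, by simp, by simp, fun h => absurd h hx⟩
  -- the new state
  let F' : ℕ → Finset Y := fun j => if j = n then s.F n ∪ A else s.F j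
  have hF'n : F' n = s.F n ∪ A := by simp [F']
  have hF'm : F' m = s.F m := by simp [F', Ne.symm hnm]
  have hF'j : ∀ j, j ≠ n → F' j = s.F j := fun j hj => by simp [F', hj]
  obtain ⟨δ, hδ, hsep⟩ := exists_sep (F' n ∪ F' m)
  have hpos := s.pos
  have hr' : 0 < min (s.r / 2) (δ / 3) := lt_min (by linarith) (by linarith)
  have hr2 : min (s.r / 2) (δ / 3) ≤ s.r / 2 := min_le_left _ _
  have hr3 : 3 * min (s.r / 2) (δ / 3) ≤ δ := by
    have := min_le_right (s.r / 2) (δ / 3)
    linarith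
  have hdisj : ∀ i j, i ≠ j → Disjoint (F' i) (F' j) := by
    have aux : ∀ j, j ≠ n → Disjoint (F' n) (F' j) := by
      intro j hj
      rw [hF'n, hF'j j hj, Finset.disjoint_union_left]
      refine ⟨s.disj n j (Ne.symm hj), ?_⟩
      rw [Finset.disjoint_left]
      intro x hx
      exact hAF x hx j
    intro i j hij
    by_cases hi : i = n
    · subst hi
      exact aux j (Ne.symm hij)
    · by_cases hj : j = n
      · subst hj
        exact (aux i hi).symm
      · rw [hF'j i hi, hF'j j hj]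
        exact s.disj i j hij
  refine ⟨⟨F', min (s.r / 2) (δ / 3), ?_, ?_, hdisj, hr'⟩, ?_, ?_, ?_⟩
  · intro j x hx
    by_cases hj : j = n
    · subst hj
      rw [hF'n, Finset.mem_union] at hx
      rcases hx with hx | hx
      · exact s.sub _ x hx
      · exact hAP x hx
    · rw [hF'j j hj] at hx
      exact s.sub _ x hx
  · intro j
    by_cases hj : j = n
    · subst hj
      rw [hF'n]
      exact (s.ne _).mono Finset.subset_union_left
    · rw [hF'j j hj]
      exact s.ne _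
  · intro j
    by_cases hj : j = n
    · subst hj
      change s.F _ ⊆ F' _
      rw [hF'n]
      exact Finset.subset_union_left
    · change s.F _ ⊆ F' _
      rw [hF'j j hj]
  · intro j x' hx'
    change x' ∈ F' j at hx'
    change ∃ x ∈ s.F j, dist x' x + min (s.r / 2) (δ / 3) ≤ s.r
    have hold : x' ∈ s.F j → ∃ x ∈ s.F j, dist x' x + min (s.r / 2) (δ / 3) ≤ s.r := by
      intro h
      exact ⟨x', h, by rw [dist_self]; linarith⟩
    by_cases hj : j = n
    · subst hj
      rw [hF'n, Finset.mem_union] at hx'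
      rcases hx' with hx | hx
      · exact hold hx
      · obtain ⟨x, hxF, hd⟩ := hAd x' hx
        exact ⟨x, hxF, by linarith⟩
    · rw [hF'j j hj] at hx'
      exact hold hx'
  · intro _
    refine ⟨?_, ?_⟩
    · intro x hx y hy
      change x ∈ F' n at hx
      change y ∈ F' m at hy
      change 3 * min (s.r / 2) (δ / 3) ≤ dist x y
      have hxy : x ≠ y := by
        rintro rfl
        exact Finset.disjoint_left.1 (hdisj n m hnm) hx hy
      exact hr3.trans (hsep x (Finset.mem_union_left _ hx) y (Finset.mem_union_right _ hy) hxy)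
    · intro hex
      obtain ⟨h1, h2⟩ := hAV hex
      refine ⟨A, ?_, ?_, ?_⟩
      · intro x hx
        refine ⟨?_, h1 x hx⟩
        change x ∈ F' n
        rw [hF'n]
        exact Finset.mem_union_right _ hx
      · change (F' m).card < A.card
        rw [hF'm]
        exact h2
      · intro x hx y hy hxy
        change 3 * min (s.r / 2) (δ / 3) ≤ dist x y
        have hin : ∀ z ∈ A, z ∈ F' n ∪ F' m := by
          intro z hz
          rw [hF'n]
          exact Finset.mem_union_left _ (Finset.mem_union_right _ hz)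
        exact hr3.trans (hsep x (hin x hx) y (hin y hy) hxy)

lemma exists_init {P : ℕ → Set Y} (hP : ∀ n, (P n).Infinite) : Nonempty (State P) := by
  classical
  have hex : ∀ (n : ℕ) (s : Finset Y), ∃ x ∈ P n, x ∉ s := fun n s =>
    (hP n).exists_notMem_finset s
  choose c hc1 hc2 using hex
  let g : ℕ → Finset Y := fun n => Nat.rec ∅ (fun n s => insert (c n s) s) n
  have hg : ∀ n, g (n + 1) = insert (c n (g n)) (g n) := fun n => rfl
  have hmono : Monotone g := monotone_nat_of_le_succ fun n => by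
    rw [hg]; exact Finset.subset_insert _ _
  let p : ℕ → Y := fun n => c n (g n)
  have hp : ∀ n, p n ∈ g (n + 1) := fun n => by rw [hg]; exact Finset.mem_insert_self _ _
  have hlt : ∀ n m, n < m → p n ≠ p m := by
    intro n m hnm h
    have h1 : p n ∈ g m := hmono hnm (hp n)
    rw [h] at h1
    exact hc2 m (g m) h1
  refine ⟨⟨fun n => {p n}, 1, ?_, ?_, ?_, one_pos⟩⟩
  · intro n x hx
    rw [Finset.mem_singleton] at hx
    rw [hx]
    exact hc1 _ _
  · intro n; exact Finset.singleton_nonempty _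
  · intro n m hnm
    rw [Finset.disjoint_singleton]
    rcases lt_or_gt_of_ne hnm with h | h
    · exact hlt n m h
    · exact (hlt m n h).symm

/-- The main construction. -/
lemma exists_family (P : ℕ → Set Y) (hPc : ∀ n, IsCompact (P n)) (hPp : ∀ n, Perfect (P n))
    (hPne : ∀ n, (P n).Nonempty) (b : ℕ → Set Y) (hb : ∀ i, IsOpen (b i))
    (hbasis : ∀ (x : Y) (V : Set Y), IsOpen V → x ∈ V → ∃ i, x ∈ b i ∧ b i ⊆ V) :
    ∃ C : ℕ → Set Y, (∀ n, IsCompact (C n)) ∧ (∀ n, C n ⊆ P n) ∧ (∀ n, (C n).Nonempty) ∧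
      (∀ n m, n ≠ m → Disjoint (C n) (C m)) ∧
      (∀ n m, n ≠ m → ∀ V : Set Y, IsOpen V → (V ∩ C n).Nonempty →
        ∃ (A B : Finset Y) (ε : ℝ), 0 < ε ∧ (∀ x ∈ A, x ∈ V ∧ x ∈ C n) ∧ B.Nonempty ∧
          B.card < A.card ∧
          (∀ x ∈ A, ∀ y ∈ A, x ≠ y → 3 * ε ≤ dist x y) ∧ ∀ z ∈ C m, ∃ w ∈ B, dist z w ≤ ε) := by
  classical
  have hP : ∀ n, ∀ U : Set Y, IsOpen U → (U ∩ P n).Nonempty → ¬ (U ∩ P n).Countable :=
    fun n U hU hne => not_countable_inter (hPc n) (hPp n) hU hne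
  obtain ⟨s0⟩ : Nonempty (State P) := exists_init fun n hfin => by
    refine hP n univ isOpen_univ (by simpa using hPne n) ?_
    simpa using hfin.countable
  have hstep : ∀ (k : ℕ) (s : State P), ∃ s' : State P,
      StepRel k.unpair.1.unpair.1 k.unpair.1.unpair.2 (b k.unpair.2.unpair.1) s s' :=
    fun k s => exists_step hP _ _ (hb _) s
  choose next hnext using hstep
  let S : ℕ → State P := fun k => Nat.rec s0 (fun k s => next k s) k
  have hS : ∀ k, StepRel k.unpair.1.unpair.1 k.unpair.1.unpair.2 (b k.unpair.2.unpair.1)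
      (S k) (S (k + 1)) := fun k => hnext k (S k)
  have htask : ∀ n m i K : ℕ, ∃ k, K ≤ k ∧ k.unpair.1.unpair.1 = n ∧ k.unpair.1.unpair.2 = m ∧
      k.unpair.2.unpair.1 = i := by
    intro n m i K
    refine ⟨Nat.pair (Nat.pair n m) (Nat.pair i K), ?_, ?_, ?_, ?_⟩
    · exact (Nat.right_le_pair i K).trans (Nat.right_le_pair _ _)
    · simp
    · simp
    · simp
  -- monotonicity
  have hmono : ∀ n, Monotone fun k => (S k).F n := fun n =>
    monotone_nat_of_le_succ fun k => (hS k).1 n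
  -- nesting
  have hnest : ∀ n k j, k ≤ j → ∀ x' ∈ (S j).F n, ∃ x ∈ (S k).F n,
      dist x' x + (S j).r ≤ (S k).r := by
    intro n k j hkj
    induction j, hkj using Nat.le_induction with
    | base => intro x hx; exact ⟨x, hx, by simp⟩
    | succ j hkj ih =>
      intro x' hx'
      obtain ⟨x, hx, hd⟩ := (hS j).2.1 n x' hx'
      obtain ⟨y, hy, hd'⟩ := ih x hx
      refine ⟨y, hy, ?_⟩
      have := dist_triangle x' x y
      linarith
  let D : ℕ → Set Y := fun n => ⋃ k, ((S k).F n : Set Y)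
  let C : ℕ → Set Y := fun n => closure (D n)
  have hDC : ∀ n k, ∀ x ∈ (S k).F n, x ∈ C n := fun n k x hx =>
    subset_closure (mem_iUnion.2 ⟨k, hx⟩)
  have hCP : ∀ n, C n ⊆ P n := by
    intro n
    refine closure_minimal ?_ (hPc n).isClosed
    refine iUnion_subset fun k x hx => (S k).sub n x hx
  have hCcov : ∀ n k, ∀ z ∈ C n, ∃ w ∈ (S k).F n, dist z w ≤ (S k).r := by
    intro n k
    have hcl : IsClosed (⋃ w ∈ (S k).F n, closedBall w (S k).r) :=
      (S k).F n |>.finite_toSet.isClosed_biUnion fun w _ => isClosed_closedBall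
    have hsub : C n ⊆ ⋃ w ∈ (S k).F n, closedBall w (S k).r := by
      refine closure_minimal ?_ hcl
      refine iUnion_subset fun j x hx => ?_
      rcases le_total k j with h | h
      · obtain ⟨w, hw, hd⟩ := hnest n k j h x hx
        refine mem_iUnion₂.2 ⟨w, hw, ?_⟩
        have := (S j).pos
        exact mem_closedBall.2 (by linarith)
      · exact mem_iUnion₂.2 ⟨x, hmono n h hx, mem_closedBall_self (S k).pos.le⟩
    intro z hz
    obtain ⟨w, hw, hd⟩ := mem_iUnion₂.1 (hsub hz)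
    exact ⟨w, hw, hd⟩
  refine ⟨C, fun n => (hPc n).of_isClosed_subset isClosed_closure (hCP n), hCP, ?_, ?_, ?_⟩
  · intro n
    obtain ⟨x, hx⟩ := (S 0).ne n
    exact ⟨x, hDC n 0 x hx⟩
  · intro n m hnm
    rw [disjoint_left]
    intro z hzn hzm
    obtain ⟨k, -, h1, h2, h3⟩ := htask n m 0 0
    have hk := hS k
    rw [h1, h2, h3] at hk
    obtain ⟨w, hw, hd⟩ := hCcov n (k + 1) z hzn
    obtain ⟨w', hw', hd'⟩ := hCcov m (k + 1) z hzm
    have hsep := (hk.2.2 hnm).1 w hw w' hw'
    have hpos := (S (k + 1)).pos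
    have := dist_triangle w z w'
    rw [dist_comm w z] at this
    linarith
  · intro n m hnm V hV hne
    obtain ⟨x, hxV, hxC⟩ := hne
    obtain ⟨i, hxi, hiV⟩ := hbasis x V hV hxV
    obtain ⟨y, hyi, hyD⟩ := mem_closure_iff.1 hxC (b i) (hb i) hxi
    obtain ⟨K, hK⟩ := mem_iUnion.1 hyD
    obtain ⟨k, hKk, h1, h2, h3⟩ := htask n m i K
    have hk := hS k
    rw [h1, h2, h3] at hk
    obtain ⟨A, hA, hcard, hsep⟩ := (hk.2.2 hnm).2 ⟨y, hmono n hKk hK, hyi⟩
    refine ⟨A, (S (k + 1)).F m, (S (k + 1)).r, (S (k + 1)).pos, ?_, (S (k + 1)).ne m, hcard,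
      hsep, hCcov m (k + 1)⟩
    intro x hx
    exact ⟨hiV (hA x hx).2, hDC n (k + 1) x (hA x hx).1⟩

end Construction

/-! ### The main theorem -/

/-- Every `k`-crowded separable metric space `Y` contains a subspace `X` which is at the same time
plastic, dense in `Y`, `σ`-compact and `k`-crowded. -/
theorem result (Y : Type u) [MetricSpace Y] [SeparableSpace Y] (hY : KCrowded Y) :
    ∃ X : Set Y, Plastic X ∧ Dense X ∧ IsSigmaCompact X ∧ KCrowded X := by
  classical
  rcases isEmpty_or_nonempty Y with hempty | hnonempty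
  · refine ⟨∅, ?_, ?_, isSigmaCompact_empty, ?_⟩
    · intro f _ _ x; exact x.2.elim
    · intro x; exact hempty.elim x
    · rintro U - ⟨x, -⟩; exact x.2.elim
  have : SecondCountableTopology Y := UniformSpace.secondCountable_of_separable Y
  obtain ⟨B, hBc, hB0, hB⟩ := exists_countable_basis Y
  have hBne : B.Nonempty := by
    obtain ⟨x⟩ := hnonempty
    obtain ⟨u, hu, -⟩ := hB.exists_subset_of_mem_open (mem_univ x) isOpen_univ
    exact ⟨u, hu⟩
  obtain ⟨b, hbB⟩ := hBc.exists_eq_range hBne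
  have hbmem : ∀ i, b i ∈ B := fun i => by rw [hbB]; exact mem_range_self i
  have hb : ∀ i, IsOpen (b i) := fun i => hB.isOpen (hbmem i)
  have hbne : ∀ i, (b i).Nonempty := fun i =>
    nonempty_iff_ne_empty.2 fun h => hB0 (h ▸ hbmem i)
  have hbasis : ∀ (x : Y) (V : Set Y), IsOpen V → x ∈ V → ∃ i, x ∈ b i ∧ b i ⊆ V := by
    intro x V hV hx
    obtain ⟨u, hu, hxu, huV⟩ := hB.exists_subset_of_mem_open hx hV
    rw [hbB] at hu
    obtain ⟨i, rfl⟩ := hu
    exact ⟨i, hxu, huV⟩
  have hP : ∀ i, ∃ P : Set Y, IsCompact P ∧ Perfect P ∧ P.Nonempty ∧ P ⊆ b i := by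
    intro i
    obtain ⟨K, hKb, hKc, hKu⟩ := hY (b i) (hb i) (hbne i)
    obtain ⟨D, hD, hDne, hDK⟩ :=
      exists_perfect_nonempty_of_isClosed_of_not_countable hKc.isClosed hKu
    exact ⟨D, hKc.of_isClosed_subset hD.closed hDK, hD, hDne, hDK.trans hKb⟩
  choose P hPc hPp hPne hPb using hP
  obtain ⟨C, hCc, hCP, hCne, hCd, hCr⟩ := exists_family P hPc hPp hPne b hb hbasis
  -- the pieces are uncountable
  have hCunc : ∀ n, ¬ (C n).Countable := by
    intro n
    refine not_countable_of_preperfect (hCc n) (hCne n) ?_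
    rw [preperfect_iff_nhds]
    intro x hx U hU
    obtain ⟨V, hVU, hV, hxV⟩ := _root_.mem_nhds_iff.1 hU
    obtain ⟨A, B, ε, hε, hA, hBne, hcard, -, -⟩ :=
      hCr n (n + 1) (by omega) V hV ⟨x, hxV, hx⟩
    have h1 : 1 < A.card := lt_of_le_of_lt (Finset.card_pos.2 hBne) hcard
    obtain ⟨y, hy, hyx⟩ := Finset.exists_mem_ne h1 x
    exact ⟨y, ⟨hVU (hA y hy).1, (hA y hy).2⟩, hyx⟩
  have hmem : ∀ n, C n ⊆ ⋃ i, C i := fun n => subset_iUnion C n
  have hcomp : ∀ n, IsCompact (Subtype.val ⁻¹' C n : Set (⋃ i, C i : Set Y)) := by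
    intro n
    rw [Subtype.isCompact_iff, Subtype.image_preimage_coe, inter_eq_right.2 (hmem n)]
    exact hCc n
  refine ⟨⋃ n, C n, ?_, ?_, isSigmaCompact_iUnion_of_isCompact C hCc, ?_⟩
  · -- plasticity
    refine plastic_of_rigid (fun n => (Subtype.val ⁻¹' C n : Set (⋃ i, C i : Set Y))) ?_ ?_ ?_ ?_
    · intro n
      exact hcomp n
    · intro n m hnm
      exact (hCd n m hnm).preimage _
    · intro x
      obtain ⟨n, hn⟩ := mem_iUnion.1 x.2
      exact ⟨n, hn⟩
    · rintro n m hnm V hV ⟨x, hxV, hxC⟩ ⟨g, hg1, hg2⟩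
      obtain ⟨V', hV', rfl⟩ := isOpen_induced_iff.1 hV
      obtain ⟨A, B, ε, hε, hA, hBne, hcard, hsep, hcov⟩ := hCr n m hnm V' hV' ⟨x, hxV, hxC⟩
      -- pigeonhole
      have hmemA : ∀ a ∈ A, a ∈ ⋃ i, C i := fun a ha => hmem n (hA a ha).2
      have hG : ∀ a ∈ A, ∃ w ∈ B, ∃ ha : a ∈ ⋃ i, C i, dist (g ⟨a, ha⟩ : Y) w ≤ ε := by
        intro a ha
        have h1 := hg1 ⟨a, hmemA a ha⟩ ⟨(hA a ha).1, (hA a ha).2⟩
        obtain ⟨w, hw, hd⟩ := hcov _ h1
        exact ⟨w, hw, hmemA a ha, hd⟩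
      choose! w hw hw' using hG
      obtain ⟨a, ha, a', ha', hne, heq⟩ :=
        Finset.exists_ne_map_eq_of_card_lt_of_maps_to hcard (fun a ha => hw a ha)
      obtain ⟨h1, h2⟩ := hw' a ha
      obtain ⟨h1', h2'⟩ := hw' a' ha'
      have h3 := hg2 ⟨a, h1⟩ ⟨(hA a ha).1, (hA a ha).2⟩ ⟨a', h1'⟩ ⟨(hA a' ha').1, (hA a' ha').2⟩
      have h4 := hsep a ha a' ha' hne
      rw [← heq] at h2'
      have h5 := dist_triangle_right (g ⟨a, h1⟩ : Y) (g ⟨a', h1'⟩ : Y) (w a)
      have h6 : dist a a' ≤ dist (g ⟨a, h1⟩ : Y) (g ⟨a', h1'⟩ : Y) := h3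
      linarith
  · -- density
    rw [dense_iff_inter_open]
    rintro V hV ⟨x, hx⟩
    obtain ⟨i, hxi, hiV⟩ := hbasis x V hV hx
    obtain ⟨y, hy⟩ := hCne i
    exact ⟨y, hiV (hPb i (hCP i hy)), hmem i hy⟩
  · -- `k`-crowdedness
    rintro V hV ⟨x, hx⟩
    obtain ⟨V', hV', rfl⟩ := isOpen_induced_iff.1 hV
    obtain ⟨i, hxi, hiV⟩ := hbasis x V' hV' hx
    refine ⟨Subtype.val ⁻¹' C i, ?_, hcomp i, ?_⟩
    · intro y hy
      exact hiV (hPb i (hCP i hy))
    · intro hcount
      apply hCunc i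
      have := hcount.image (Subtype.val : (⋃ i, C i : Set Y) → Y)
      rwa [Subtype.image_preimage_coe, inter_eq_right.2 (hmem i)] at this

end Pool.Agent.Results.MP_4aa5c9_gt.PlasticSubspace
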